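import Pool.Agent.W845.TR.Base

set_option autoImplicit false
open scoped BigOperators

/-!
Project TR: concentration of a function with mean zero over a block of bits.
-/

namespace Pool.Agent.W612.TR

open Pool.Agent.W845.TR

variable {d : ℕ}

lemma onebit_pt (p κ lam a b : ℝ) (hp0 : 0 ≤ p) (hp1 : p ≤ 1) (hκ : 0 < κ) (h1 : OneBit p κ)
    (hab : |a - b| ≤ 2) :
    p * Real.exp (lam * a) + (1 - p) * Real.exp (lam * b) ≤
      Real.exp (4 * κ * lam ^ 2) * Real.exp (lam * (p * a + (1 - p) * b)) := by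
  have e1 : Real.exp (lam * a) = Real.exp (lam * (p * a + (1 - p) * b)) *
      Real.exp ((lam * (a - b)) * (1 - p)) := by
    rw [← Real.exp_add]; congr 1; ring
  have e2 : Real.exp (lam * b) = Real.exp (lam * (p * a + (1 - p) * b)) *
      Real.exp (-((lam * (a - b)) * p)) := by
    rw [← Real.exp_add]; congr 1; ring
  rw [e1, e2]
  have h2 := h1 (lam * (a - b))
  have h3 : Real.exp (κ * (lam * (a - b)) ^ 2) ≤ Real.exp (4 * κ * lam ^ 2) := by
    apply Real.exp_le_exp.mpr
    have h4 : (a - b) ^ 2 ≤ 4 := by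
      have := abs_le.mp hab
      nlinarith [this.1, this.2]
    have h5 : 0 ≤ κ * lam ^ 2 := by positivity
    nlinarith [mul_le_mul_of_nonneg_left h4 h5]
  have h6 := Real.exp_pos (lam * (p * a + (1 - p) * b))
  nlinarith [mul_le_mul_of_nonneg_left (h2.trans h3) h6.le]

theorem mgf (p κ : ℝ) (hp0 : 0 ≤ p) (hp1 : p ≤ 1) (hκ : 0 < κ) (h1 : OneBit p κ) (lam : ℝ)
    (R : Finset (S d)) : ∀ Y : Finset (S d) → ℝ,
    (∀ A ⊆ R, ∀ x ∈ R, |Y (insert x A) - Y (A.erase x)| ≤ 2) →
    Ex (fun _ => p) R (fun A => Real.exp (lam * Y A)) ≤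
      Real.exp (lam * Ex (fun _ => p) R Y + 4 * κ * lam ^ 2 * R.card) := by
  induction R using Finset.induction_on with
  | empty =>
    intro Y _
    rw [Ex_empty, Ex_empty]
    simp
  | insert x R hx ih =>
    intro Y hY
    have hq : ∀ y ∈ R, 0 ≤ (fun _ : S d => p) y ∧ (fun _ : S d => p) y ≤ 1 := fun _ _ => ⟨hp0, hp1⟩
    rw [Ex_insert _ _ _ hx, Ex_insert _ _ _ hx, ← Ex_mul_left, ← Ex_mul_left, ← Ex_add]
    set Z : Finset (S d) → ℝ := fun A => p * Y (insert x A) + (1 - p) * Y A with hZ
    have hZl : ∀ A ⊆ R, ∀ y ∈ R, |Z (insert y A) - Z (A.erase y)| ≤ 2 := by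
      intro A hA y hy
      have hxy : x ≠ y := fun h => hx (h ▸ hy)
      have g1 := hY (insert x A) (Finset.insert_subset_insert _ hA) y (Finset.mem_insert_of_mem hy)
      have g2 := hY A (hA.trans (Finset.subset_insert _ _)) y (Finset.mem_insert_of_mem hy)
      rw [Finset.erase_insert_of_ne hxy, Finset.insert_comm] at g1
      rw [hZ]
      simp only
      rw [abs_le] at g1 g2 ⊢
      constructor <;> nlinarith [g1.1, g1.2, g2.1, g2.2]
    have hstep : Ex (fun _ => p) R (fun A => p * Real.exp (lam * Y (insert x A)) +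
        (1 - p) * Real.exp (lam * Y A)) ≤
        Ex (fun _ => p) R (fun A => Real.exp (4 * κ * lam ^ 2) * Real.exp (lam * Z A)) := by
      apply Ex_mono _ _ _ _ hq
      intro A hA
      have hxA : x ∉ A := fun h => hx (hA h)
      have g1 := hY A (hA.trans (Finset.subset_insert _ _)) x (Finset.mem_insert_self _ _)
      rw [Finset.erase_eq_of_notMem hxA] at g1
      exact onebit_pt p κ lam _ _ hp0 hp1 hκ h1 g1
    refine hstep.trans ?_
    rw [Ex_mul_left]
    have h3 := mul_le_mul_of_nonneg_left (ih Z hZl) (Real.exp_pos (4 * κ * lam ^ 2)).le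
    refine h3.trans ?_
    rw [← Real.exp_add]
    apply Real.exp_le_exp.mpr
    have e1 : Ex (fun _ => p) R Z =
        Ex (fun _ => p) R (fun A => p * Y (insert x A)) + Ex (fun _ => p) R (fun A => (1 - p) * Y A) := by
      rw [← Ex_add]
    rw [e1, Ex_mul_left, Ex_mul_left, Finset.card_insert_of_notMem hx]
    push_cast
    apply le_of_eq
    ring

theorem conc : St_CONC := by
  intro d p κ B R X hp0 hp1 hκ h1 hRB hX hmean t ht
  have hq : ∀ y ∈ B, 0 ≤ (fun _ : S d => p) y ∧ (fun _ : S d => p) y ≤ 1 := fun _ _ => ⟨hp0, hp1⟩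
  rcases Nat.eq_zero_or_pos R.card with h0 | h0
  · rw [h0]
    simp only [Nat.cast_zero, mul_zero, div_zero, Real.exp_zero]
    exact Pr_le_one _ _ _ hq
  have hc : (0 : ℝ) < R.card := by exact_mod_cast h0
  set lam : ℝ := t / (8 * κ * R.card) with hlam
  have hlpos : 0 < lam := by positivity
  have hEx : Ex (fun _ => p) B (fun A => Real.exp (lam * X A)) ≤
      Real.exp (4 * κ * lam ^ 2 * R.card) := by
    have e : B = (B \ R) ∪ R := by rw [Finset.sdiff_union_of_subset hRB]
    have hd : Disjoint (B \ R) R := Finset.sdiff_disjoint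
    conv_lhs => rw [e]
    rw [Ex_union _ _ _ hd]
    have hq' : ∀ y ∈ B \ R, 0 ≤ (fun _ : S d => p) y ∧ (fun _ : S d => p) y ≤ 1 :=
      fun _ _ => ⟨hp0, hp1⟩
    calc _ ≤ Ex (fun _ => p) (B \ R) (fun _ => Real.exp (4 * κ * lam ^ 2 * R.card)) := by
          apply Ex_mono _ _ _ _ hq'
          intro A hA
          have h2 := mgf p κ hp0 hp1 hκ h1 lam R (fun A' => X (A ∪ A')) (by
            intro A' hA' x hx
            have hxA : x ∉ A := fun h => (Finset.mem_sdiff.1 (hA h)).2 hx
            have hsub : A ∪ A' ⊆ B :=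
              Finset.union_subset (hA.trans Finset.sdiff_subset) (hA'.trans hRB)
            have g := hX (A ∪ A') hsub x hx
            have e2 : A ∪ A'.erase x = (A ∪ A').erase x := by
              rw [Finset.erase_union_distrib, Finset.erase_eq_of_notMem hxA]
            rw [Finset.union_insert, e2]
            exact g)
          rw [hmean A hA, mul_zero, zero_add] at h2
          exact h2
      _ = _ := Ex_const _ _ _
  have hmono : Pr (fun _ => p) B (fun A => t ≤ X A) ≤
      Pr (fun _ => p) B (fun A => Real.exp (lam * t) ≤ Real.exp (lam * X A)) := by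
    apply Pr_mono _ _ _ _ hq
    intro A _ h
    exact Real.exp_le_exp.mpr (mul_le_mul_of_nonneg_left h hlpos.le)
  have hmar := Pr_markov (fun _ => p) B (fun A => Real.exp (lam * X A)) (Real.exp (lam * t)) hq
    (fun A _ => (Real.exp_pos _).le) (Real.exp_pos _)
  refine hmono.trans (hmar.trans ?_)
  rw [div_le_iff₀ (Real.exp_pos _), ← Real.exp_add]
  refine hEx.trans (Real.exp_le_exp.mpr ?_)
  apply le_of_eq
  rw [hlam]
  field_simp
  ring

end Pool.Agent.W612.TR
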